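import Pool.Agent.N71.RP.Stm

set_option autoImplicit false

/-!
Project RP (helper71), part COMB: two characters; one of the two truncated values at `1` is bounded below.
-/

namespace Pool.Agent.N40.RP

open Finset Pool.Agent.N71.RP

theorem pp_pos {f : ℕ → ℝ} {Q : ℝ} (h : Chr f Q) (X : ℕ) : 0 < Pool.Agent.N71.RP.PP f X := by
  unfold Pool.Agent.N71.RP.PP
  refine Finset.prod_pos fun p hp => ?_
  have hp1 : p.Prime := (Finset.mem_filter.1 hp).2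
  have hp2 : (2 : ℝ) ≤ p := by exact_mod_cast hp1.two_le
  have hf : f p ≤ 1 := by
    rcases h.val p with h1 | h1 | h1 <;> rw [h1] <;> norm_num
  have h3 : f p / p ≤ 1 / 2 := by
    rw [div_le_div_iff₀ (by linarith) (by norm_num)]
    nlinarith
  exact inv_pos.2 (by linarith)

theorem gy_one (f : ℕ → ℝ) (y : ℕ) : gy f y 1 = la f y := by
  unfold gy la
  refine Finset.sum_congr rfl fun m _ => ?_
  rw [Real.rpow_neg (Nat.cast_nonneg m), Real.rpow_one, div_eq_mul_inv]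

theorem gy_cont (f : ℕ → ℝ) (y : ℕ) : Continuous (gy f y) := by
  unfold gy
  refine continuous_finsetSum _ fun m hm => ?_
  have hm1 : (0 : ℝ) < m := by
    have := (Finset.mem_Icc.1 hm).1
    exact_mod_cast this
  refine continuous_const.mul ?_
  exact Continuous.rpow continuous_const continuous_neg (fun _ => Or.inl hm1.ne')

theorem t_COMB (hAA : E_AA) (hBB : E_BB) (hB2 : E_B2) (hCC : E_CC) : E_COMB := by
  obtain ⟨c₁, X₁, hc₁, hX₁, hA⟩ := hAA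
  obtain ⟨C, X₂, hC, -, hB⟩ := hBB
  obtain ⟨C₂, X₃, hC₂, -, hD⟩ := hB2
  obtain ⟨c, X₄, hc, -, hE⟩ := hCC
  have hcc : 0 < c / (C * C₂) := by positivity
  refine ⟨min c₁ (c / (C * C₂)), max X₁ (max X₂ (max X₃ X₄)), lt_min hc₁ hcc, hX₁.trans (le_max_left _ _),
    fun X hX f₁ f₂ h₁ h₂ h₃ hl₁ hl₂ => ?_⟩
  have hX1 : X₁ ≤ X := (le_max_left _ _).trans hX
  have hX2 : X₂ ≤ X := ((le_max_left _ _).trans (le_max_right _ _)).trans hX
  have hX3 : X₃ ≤ X := ((le_max_left _ _).trans ((le_max_right _ _).trans (le_max_right _ _))).trans hX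
  have hX4 : X₄ ≤ X := ((le_max_right _ _).trans ((le_max_right _ _).trans (le_max_right _ _))).trans hX
  have hX3' : 3 ≤ X := hX₁.trans hX1
  have p1 := pp_pos h₁ X
  have p2 := pp_pos h₂ X
  have p3 := pp_pos h₃ X
  by_cases hcase : c₁ * Pool.Agent.N71.RP.PP f₁ X ≤ la f₁ (X ^ 16)
  · left
    exact (mul_le_mul_of_nonneg_right (min_le_left _ _) p1.le).trans hcase
  · right
    have hlog : 0 < Real.log X := Real.log_pos (by exact_mod_cast (by omega : 1 < X))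
    obtain ⟨b₀, hb₀⟩ : ∃ b₀ : ℝ, b₀ = 1 - 1 / Real.log X := ⟨_, rfl⟩
    have hb1 : b₀ < 1 := by
      rw [hb₀]
      have : 0 < 1 / Real.log X := by positivity
      linarith
    have hneg : gy f₁ (X ^ 16) b₀ < 0 := by
      by_contra hcon
      apply hcase
      refine hA X hX1 f₁ h₁ ?_
      rw [← hb₀]
      exact not_lt.1 hcon
    have hpos : 0 < gy f₁ (X ^ 16) 1 := by
      rw [gy_one]
      exact hl₁
    obtain ⟨b, ⟨hb2, hb3⟩, hb4⟩ := intermediate_value_Ioo hb1.le (gy_cont f₁ (X ^ 16)).continuousOn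
      (show (0 : ℝ) ∈ Set.Ioo (gy f₁ (X ^ 16) b₀) (gy f₁ (X ^ 16) 1) from ⟨hneg, hpos⟩)
    have hbb : 1 - 1 / Real.log X ≤ b := by
      rw [← hb₀]
      exact hb2.le
    have e1 := hB X hX2 f₁ h₁ b hbb hb3 hb4
    have e2 := hE X hX4 f₁ f₂ h₁ h₂ h₃ b hbb hb3 hb4
    have e3 := hD X hX3 _ h₃
    obtain ⟨P1, hP1⟩ : ∃ t : ℝ, t = Pool.Agent.N71.RP.PP f₁ X := ⟨_, rfl⟩
    obtain ⟨P2, hP2⟩ : ∃ t : ℝ, t = Pool.Agent.N71.RP.PP f₂ X := ⟨_, rfl⟩
    obtain ⟨P3, hP3⟩ : ∃ t : ℝ, t = Pool.Agent.N71.RP.PP (fun n => f₁ n * f₂ n) X := ⟨_, rfl⟩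
    obtain ⟨l1, hL1⟩ : ∃ t : ℝ, t = la f₁ (X ^ 16) := ⟨_, rfl⟩
    obtain ⟨l2, hL2⟩ : ∃ t : ℝ, t = la f₂ (X ^ 16) := ⟨_, rfl⟩
    obtain ⟨l3, hL3⟩ : ∃ t : ℝ, t = la (fun n => f₁ n * f₂ n) (X ^ 16) := ⟨_, rfl⟩
    rw [← hP1] at p1
    rw [← hP2] at p2
    rw [← hP3] at p3
    rw [← hP1, ← hL1] at e1
    rw [← hP1, ← hP2, ← hP3, ← hL1, ← hL2, ← hL3] at e2
    rw [← hP3, ← hL3] at e3
    rw [← hL1] at hl₁
    rw [← hL2] at hl₂
    show min c₁ (c / (C * C₂)) * Pool.Agent.N71.RP.PP f₂ X ≤ la f₂ (X ^ 16)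
    rw [← hP2, ← hL2]
    obtain ⟨u, hu⟩ : ∃ u : ℝ, u = (1 - b) * Real.log X := ⟨_, rfl⟩
    rw [← hu] at e1 e2
    -- divide by `l1`
    have k1 : l1 * (c / C * (P2 * P3)) ≤ l1 * (l2 * l3) := by
      calc l1 * (c / C * (P2 * P3)) ≤ (C * (u * P1)) * (c / C * (P2 * P3)) :=
            mul_le_mul_of_nonneg_right e1 (by positivity)
        _ = c * (u * (P1 * P2 * P3)) := by
            field_simp
        _ ≤ l1 * l2 * l3 := e2
        _ = l1 * (l2 * l3) := by ring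
    have k2 : c / C * (P2 * P3) ≤ l2 * l3 := le_of_mul_le_mul_left k1 hl₁
    have k3 : l2 * l3 ≤ l2 * (C₂ * P3) := mul_le_mul_of_nonneg_left e3 hl₂.le
    have k4 : P3 * (c / C * P2) ≤ P3 * (l2 * C₂) := by
      calc P3 * (c / C * P2) = c / C * (P2 * P3) := by ring
        _ ≤ l2 * (C₂ * P3) := k2.trans k3
        _ = P3 * (l2 * C₂) := by ring
    have k5 : c / C * P2 ≤ l2 * C₂ := le_of_mul_le_mul_left k4 p3
    have k6 : c / (C * C₂) * P2 ≤ l2 := by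
      have : c / (C * C₂) * P2 = (c / C * P2) / C₂ := by
        field_simp
      rw [this, div_le_iff₀ hC₂]
      exact k5
    exact (mul_le_mul_of_nonneg_right (min_le_right _ _) p2.le).trans k6

end Pool.Agent.N40.RP
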